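import Pool.Agent.R521.GG.Fin
import Pool.Agent.R521.GG.Mert
import Pool.Agent.R521.GG.A
import Pool.Agent.R521.GG.B
import Pool.Agent.R521.GG.Mom
import Pool.Agent.R521.GG.Codeg
import Pool.Agent.R521.GG.Wsum
import Pool.Agent.R906.GG.Gold
import Pool.Agent.R906.GG.Twin

/-!
# The Goldbach graphs are bounded after the removal of few vertices

There are absolute constants `C` and `c > 0` such that for all `U` and all large `n` the finite Goldbach
graph `G_n` and the finite near Goldbach graph `G(n)` both have the following property: after the removal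
of at most `n / (log n) ^ U` vertices the graph has at most `C` connected components, any two vertices in
the same component are at a distance of at most `C`, and all the degrees are at least `c n / (log n) ^ 2`.
-/

set_option autoImplicit false

namespace Pool.Agent.Results.MP_443e5f_co.AlmostAllVertices

/-- `m` is an odd prime less than `2 n`. -/
def OddPrimeBelow (n m : ℕ) : Prop := m.Prime ∧ Odd m ∧ m < 2 * n

/-- The finite Goldbach graph `G_n` on `{0, 2, 4, …, 2 n}`: distinct `a`, `b` are adjacent iff
`(a + b)/2` and `|a - b|/2` are odd primes less than `2 n`. -/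
def goldbach (n : ℕ) : SimpleGraph {a : ℕ // Even a ∧ a ≤ 2 * n} where
  Adj a b := a ≠ b ∧ OddPrimeBelow n (((a : ℕ) + b) / 2) ∧ OddPrimeBelow n (Nat.dist a b / 2)
  symm := ⟨fun a b h => ⟨h.1.symm, by rw [add_comm (b : ℕ)]; exact h.2.1,
    by rw [Nat.dist_comm]; exact h.2.2⟩⟩
  loopless := ⟨fun _ h => h.1 rfl⟩

/-- The finite near Goldbach graph `G(n)` on `{2, 4, …, 2 n}`: distinct `a`, `b` are adjacent iff
each of `(a + b)/2` and `|a - b|/2` is `1` or an odd prime less than `2 n`. -/
def nearGoldbach (n : ℕ) : SimpleGraph {a : ℕ // Even a ∧ 2 ≤ a ∧ a ≤ 2 * n} where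
  Adj a b := a ≠ b ∧ (((a : ℕ) + b) / 2 = 1 ∨ OddPrimeBelow n (((a : ℕ) + b) / 2)) ∧
    (Nat.dist a b / 2 = 1 ∨ OddPrimeBelow n (Nat.dist a b / 2))
  symm := ⟨fun a b h => ⟨h.1.symm, by rw [add_comm (b : ℕ)]; exact h.2.1,
    by rw [Nat.dist_comm]; exact h.2.2⟩⟩
  loopless := ⟨fun _ h => h.1 rfl⟩

/-- There is a set `X` of vertices of `G` which contains all the vertices with at most `n / (log n) ^ U`
exceptions, such that the subgraph of `G` induced on `X` has at most `C` connected components, any two
vertices of the same component of this subgraph are at a distance of at most `C` in it, and every vertex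
of `X` has at least `c n / (log n) ^ 2` neighbours in `X`. -/
def AlmostBounded {V : Type} (G : SimpleGraph V) (C : ℕ) (c : ℝ) (U n : ℕ) : Prop :=
  ∃ X : Set V, (Xᶜ.ncard : ℝ) ≤ n / Real.log n ^ U ∧
    Nat.card (G.induce X).ConnectedComponent ≤ C ∧
    (∀ u v : X, (G.induce X).Reachable u v → (G.induce X).dist u v ≤ C) ∧
    ∀ u : X, c * (n / Real.log n ^ 2) ≤ (((G.induce X).neighborSet u).ncard : ℝ)

/-- After the removal of at most `n / (log n) ^ U` vertices the finite Goldbach graph `G_n` and the finite
near Goldbach graph `G(n)` have at most `C` connected components, all of diameter at most `C`. -/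
theorem result : ∃ (C : ℕ) (c : ℝ), 0 < c ∧ ∀ U : ℕ, ∃ N : ℕ, ∀ n : ℕ, N ≤ n →
    AlmostBounded (goldbach n) C c U n ∧ AlmostBounded (nearGoldbach n) C c U n :=
  R521.GG.fin_of R521.GG.t_graph R521.GG.t_mom (R521.GG.t_codeg R521.GG.t_mert)
    (R521.GG.t_wsum R521.GG.t_mert) R906.GGF.t_gold R906.GGG.t_twin R521.GG.t_peel

end Pool.Agent.Results.MP_443e5f_co.AlmostAllVertices
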