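import Mathlib

set_option autoImplicit false

/-!
# The finite Goldbach and near Goldbach graphs have diameter at least five for all `n ≥ 125`

The vertices `52` and `250` are at distance at least `5` in `G_n` and in `G(n)` for every `n ≥ 125`.
Up to the edge `{0, 6}` of `G_n` and the edge `{2, 4}` of `G(n)` all edges either join a multiple of
`3` and a non-multiple of `3`, or they are of the form `{a, a + 6}` with `a + 3` prime, where `a` is
not a multiple of `3`.
-/

namespace Pool.Agent.Results.MP_443e5f_co.DiameterAtLeastFive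

/-- An odd prime less than `2 n`. -/
def OddPrimeBelow (n m : ℕ) : Prop := m.Prime ∧ Odd m ∧ m < 2 * n

/-- The finite Goldbach graph `G_n` on `{0, 2, 4, …, 2 n}`: distinct `a`, `b` are adjacent iff
`(a + b)/2` and `|a - b|/2` are odd primes less than `2 n`. -/
def goldbach (n : ℕ) : SimpleGraph {a : ℕ // Even a ∧ a ≤ 2 * n} where
  Adj a b := a ≠ b ∧ OddPrimeBelow n (((a : ℕ) + b) / 2) ∧ OddPrimeBelow n (Nat.dist a b / 2)
  symm := ⟨fun a b h => ⟨h.1.symm, by rw [add_comm (b : ℕ)]; exact h.2.1,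
    by rw [Nat.dist_comm]; exact h.2.2⟩⟩
  loopless := ⟨fun _ h => h.1 rfl⟩

/-- The finite near Goldbach graph `G(n)` on `{2, 4, …, 2 n}`: distinct `a`, `b` are adjacent iff
each of `(a + b)/2` and `|a - b|/2` is `1` or an odd prime less than `2 n`. -/
def nearGoldbach (n : ℕ) : SimpleGraph {a : ℕ // Even a ∧ 2 ≤ a ∧ a ≤ 2 * n} where
  Adj a b := a ≠ b ∧ (((a : ℕ) + b) / 2 = 1 ∨ OddPrimeBelow n (((a : ℕ) + b) / 2)) ∧
    (Nat.dist a b / 2 = 1 ∨ OddPrimeBelow n (Nat.dist a b / 2))
  symm := ⟨fun a b h => ⟨h.1.symm, by rw [add_comm (b : ℕ)]; exact h.2.1,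
    by rw [Nat.dist_comm]; exact h.2.2⟩⟩
  loopless := ⟨fun _ h => h.1 rfl⟩

/-- The properties of `1` and the odd primes which are used. -/
def Q (m : ℕ) : Prop := m % 2 = 1 ∧ (m % 3 ≠ 0 ∨ m = 3) ∧ m ≠ 49 ∧ m ≠ 55 ∧ m ≠ 125 ∧ m ≠ 247 ∧
  m ≠ 253

lemma Q_of {n m : ℕ} (h : m = 1 ∨ OddPrimeBelow n m) : Q m := by
  rcases h with rfl | ⟨h1, h2, -⟩
  · unfold Q; norm_num
  · refine ⟨Nat.odd_iff.mp h2, ?_, ?_, ?_, ?_, ?_, ?_⟩
    · by_cases h3 : m = 3
      · exact Or.inr h3
      · left
        intro h4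
        exact h3 ((Nat.prime_dvd_prime_iff_eq Nat.prime_three h1).mp
          (Nat.dvd_of_mod_eq_zero h4)).symm
    all_goals
      rintro rfl
      norm_num at h1

lemma mod3 {c x s d : ℕ} (hc : c % 3 ≠ 0) (hs : s = c + x) (hd : d + x = c ∨ d + c = x)
    (h1 : s % 3 ≠ 0) (h2 : d % 3 ≠ 0) : x % 3 = 0 := by
  have hc' : c % 3 = 1 ∨ c % 3 = 2 := by omega
  have hx : x % 3 = 0 ∨ x % 3 = 1 ∨ x % 3 = 2 := by omega
  rcases hc' with hc' | hc' <;> rcases hx with hx | hx | hx <;> omega

/-- The half of a path. -/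
lemma end26 {x s d : ℕ} (hs : s = 26 + x) (hd : d = Nat.dist 26 x) (h1 : Q s) (h2 : Q d) :
    x % 3 = 0 := by
  obtain ⟨a1, a2, a3, a4, -⟩ := h1
  obtain ⟨b1, b2, -⟩ := h2
  rcases le_total x 26 with h | h
  · rw [Nat.dist_eq_sub_of_le_right h] at hd
    have h8 : x ≠ 23 := by rintro rfl; exact a3 hs
    clear a3 a4
    exact mod3 (c := 26) (d := d) (by norm_num) hs (by omega) (by omega) (by omega)
  · rw [Nat.dist_eq_sub_of_le h] at hd
    have h8 : x ≠ 29 := by rintro rfl; exact a4 hs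
    clear a3 a4
    exact mod3 (c := 26) (d := d) (by norm_num) hs (by omega) (by omega) (by omega)

lemma end125 {x s d : ℕ} (hs : s = 125 + x) (hd : d = Nat.dist 125 x) (h1 : Q s) (h2 : Q d) :
    x % 3 = 0 ∧ x ≠ 0 := by
  obtain ⟨a1, a2, -, -, a5, a6, a7⟩ := h1
  obtain ⟨b1, b2, -⟩ := h2
  have h9 : x ≠ 0 := by rintro rfl; exact a5 hs
  rcases le_total x 125 with h | h
  · rw [Nat.dist_eq_sub_of_le_right h] at hd
    have h8 : x ≠ 122 := by rintro rfl; exact a6 hs
    clear a5 a6 a7
    exact ⟨mod3 (c := 125) (d := d) (by norm_num) hs (by omega) (by omega) (by omega), h9⟩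
  · rw [Nat.dist_eq_sub_of_le h] at hd
    have h8 : x ≠ 128 := by rintro rfl; exact a7 hs
    clear a5 a6 a7
    exact ⟨mod3 (c := 125) (d := d) (by norm_num) hs (by omega) (by omega) (by omega), h9⟩

/-- A general lower bound: the graph lives on a set of even numbers, and the halves of the sum and
of the difference of adjacent vertices satisfy `Q`. -/
lemma lower {V : Type*} (G : SimpleGraph V) (f : V → ℕ)
    (hf : ∀ u v, G.Adj u v → Q (f u + f v) ∧ Q (Nat.dist (f u) (f v))) (u v : V)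
    (hu : f u = 26) (hv : f v = 125) : 5 ≤ G.edist u v := by
  by_contra hcon
  push Not at hcon
  obtain ⟨w, hw⟩ := SimpleGraph.exists_walk_of_edist_ne_top (ne_top_of_lt hcon)
  rw [← hw] at hcon
  have hlen : w.length < 5 := by exact_mod_cast hcon
  clear hw hcon
  have par : ∀ a b, G.Adj a b → (f a + f b) % 2 = 1 := fun a b h => (hf a b h).1.1
  cases w with
  | nil => omega
  | @cons _ x _ e1 w =>
    have p1 := par _ _ e1
    cases w with
    | nil =>
      have h := (hf _ _ e1).2
      rw [hu, hv, Nat.dist_eq_sub_of_le (by norm_num)] at h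
      unfold Q at h
      omega
    | @cons _ y _ e2 w =>
      have p2 := par _ _ e2
      cases w with
      | nil => omega
      | @cons _ z _ e3 w =>
        have p3 := par _ _ e3
        cases w with
        | nil =>
          obtain ⟨a1, a2⟩ := hf _ _ e1
          obtain ⟨b1, b2⟩ := hf _ _ e2
          obtain ⟨c1, c2⟩ := hf _ _ e3
          rw [hu] at a1 a2
          rw [hv, add_comm] at c1
          rw [hv, Nat.dist_comm] at c2
          have r1 := end26 rfl rfl a1 a2
          obtain ⟨r2, r3⟩ := end125 rfl rfl c1 c2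
          have r4 : f x = 0 := by
            have h := b1.2.1
            unfold Q at b1
            omega
          have r5 : f y = 3 := by
            have h := b1.2.1
            omega
          rw [r5] at c1
          unfold Q at c1
          rw [r4] at a1
          unfold Q at a1
          omega
        | @cons _ t _ e4 w =>
          have p4 := par _ _ e4
          cases w with
          | nil => omega
          | cons e5 w =>
            simp only [SimpleGraph.Walk.length_cons] at hlen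
            omega

/-- The finite Goldbach graph `G_n` and the finite near Goldbach graph `G(n)` have diameter at least
`5` (possibly infinite) for every `n ≥ 125`. -/
theorem result (n : ℕ) (hn : 125 ≤ n) : 5 ≤ (goldbach n).ediam ∧ 5 ≤ (nearGoldbach n).ediam := by
  constructor
  · let u : {a : ℕ // Even a ∧ a ≤ 2 * n} := ⟨52, by decide, by omega⟩
    let v : {a : ℕ // Even a ∧ a ≤ 2 * n} := ⟨250, by decide, by omega⟩
    have hu : (u : ℕ) / 2 = 26 := by simp only [u]
    have hv : (v : ℕ) / 2 = 125 := by simp only [v]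
    refine (lower (goldbach n) (fun a => (a : ℕ) / 2) ?_ u v hu hv).trans
      SimpleGraph.edist_le_ediam
    rintro ⟨a, ⟨x, rfl⟩, ha⟩ ⟨b, ⟨y, rfl⟩, hb⟩ ⟨-, h1, h2⟩
    simp only at h1 h2 ⊢
    have e1 : (x + x) / 2 + (y + y) / 2 = (x + x + (y + y)) / 2 := by omega
    have e2 : Nat.dist ((x + x) / 2) ((y + y) / 2) = Nat.dist (x + x) (y + y) / 2 := by
      unfold Nat.dist; omega
    rw [e1, e2]
    exact ⟨Q_of (Or.inr h1), Q_of (Or.inr h2)⟩
  · let u : {a : ℕ // Even a ∧ 2 ≤ a ∧ a ≤ 2 * n} := ⟨52, by decide, by norm_num, by omega⟩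
    let v : {a : ℕ // Even a ∧ 2 ≤ a ∧ a ≤ 2 * n} := ⟨250, by decide, by norm_num, by omega⟩
    have hu : (u : ℕ) / 2 = 26 := by simp only [u]
    have hv : (v : ℕ) / 2 = 125 := by simp only [v]
    refine (lower (nearGoldbach n) (fun a => (a : ℕ) / 2) ?_ u v hu hv).trans
      SimpleGraph.edist_le_ediam
    rintro ⟨a, ⟨x, rfl⟩, ha⟩ ⟨b, ⟨y, rfl⟩, hb⟩ ⟨-, h1, h2⟩
    simp only at h1 h2 ⊢
    have e1 : (x + x) / 2 + (y + y) / 2 = (x + x + (y + y)) / 2 := by omega
    have e2 : Nat.dist ((x + x) / 2) ((y + y) / 2) = Nat.dist (x + x) (y + y) / 2 := by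
      unfold Nat.dist; omega
    rw [e1, e2]
    exact ⟨Q_of h1, Q_of h2⟩

end Pool.Agent.Results.MP_443e5f_co.DiameterAtLeastFive
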