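import Pool.Agent.R521.GG.Fin2
import Pool.Agent.R521.GG.Mert
import Pool.Agent.R521.GG.A
import Pool.Agent.R521.GG.Mom
import Pool.Agent.R521.GG.Codeg2
import Pool.Agent.R521.GG.D2
import Pool.Agent.R521.GG.V2
import Pool.Agent.R521.GG.Chen

/-!
# The Goldbach graph with one of the two primes replaced by an almost prime

The vertices are `0, 2, 4, …, 2 n` as in the finite Goldbach graph `G_n`, and there are at most `C`
connected components, all of diameter at most `C`, with no exceptional vertices.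
-/

set_option autoImplicit false

namespace Pool.Agent.Results.MP_443e5f_co.OneAlmostPrime

/-- `m` is odd, and a prime or the product of two (not necessarily distinct) primes. -/
def OddSemi (m : ℕ) : Prop := Odd m ∧ (m.Prime ∨ ∃ p q : ℕ, p.Prime ∧ q.Prime ∧ m = p * q)

/-- The graph on `{0, 2, 4, …, 2 n}` in which distinct `a`, `b` are adjacent iff `|a - b|/2` is an odd prime
and `(a + b)/2` is an odd prime or the product of two odd primes. -/
def chenDiff (n : ℕ) : SimpleGraph {a : ℕ // Even a ∧ a ≤ 2 * n} where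
  Adj a b := a ≠ b ∧ OddSemi (((a : ℕ) + b) / 2) ∧ ((Nat.dist a b / 2).Prime ∧ Odd (Nat.dist a b / 2))
  symm := ⟨fun a b h => ⟨h.1.symm, by rw [add_comm (b : ℕ)]; exact h.2.1,
    by rw [Nat.dist_comm]; exact h.2.2⟩⟩
  loopless := ⟨fun _ h => h.1 rfl⟩

/-- The graph on `{0, 2, 4, …, 2 n}` in which distinct `a`, `b` are adjacent iff `(a + b)/2` is an odd prime
and `|a - b|/2` is an odd prime or the product of two odd primes. -/
def chenSum (n : ℕ) : SimpleGraph {a : ℕ // Even a ∧ a ≤ 2 * n} where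
  Adj a b := a ≠ b ∧ ((((a : ℕ) + b) / 2).Prime ∧ Odd (((a : ℕ) + b) / 2)) ∧ OddSemi (Nat.dist a b / 2)
  symm := ⟨fun a b h => ⟨h.1.symm, by rw [add_comm (b : ℕ)]; exact h.2.1,
    by rw [Nat.dist_comm]; exact h.2.2⟩⟩
  loopless := ⟨fun _ h => h.1 rfl⟩

/-- For large `n` both graphs have at most `C` connected components, all of diameter at most `C`. -/
theorem result : ∃ C N : ℕ, ∀ n : ℕ, N ≤ n →
    (Nat.card (chenDiff n).ConnectedComponent ≤ C ∧
      ∀ u v, (chenDiff n).Reachable u v → (chenDiff n).dist u v ≤ C) ∧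
    (Nat.card (chenSum n).ConnectedComponent ≤ C ∧
      ∀ u v, (chenSum n).Reachable u v → (chenSum n).dist u v ≤ C) :=
  R521.GG.fin2_of R521.GG.t_graph R521.GG.t_mom (R521.GG.t_codeg2 R521.GG.t_mert)
    (R521.GG.t_wsum2 R521.GG.t_mert) (R521.GG.t_chenD R521.GG.t_prodV) (R521.GG.t_chenS R521.GG.t_prodV)

end Pool.Agent.Results.MP_443e5f_co.OneAlmostPrime
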