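import Mathlib
import Pool.Agent.H505R2.Triple

set_option autoImplicit false

/-!
# The intersection of the graphs `G(p, n)` over all small odd primes has diameter exactly five

For all large `n` and every set `P` of odd primes `p` with `p ^ 1200 ≤ n`, the intersection of the
graphs `G(p, n)`, `p ∈ P`, is connected with diameter at most `5`, and exactly `5` if
`3, 5, 7 ∈ P`. The upper bound uses a lower bound sieve of dimension four.
-/

namespace Pool.Agent.Results.MP_443e5f_co.SieveDiameter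

open Pool.Agent.H505R2

/-- The vertex set `{2, 4, …, 2 n}`. -/
abbrev V (n : ℕ) : Type := {a : ℕ // Even a ∧ 2 ≤ a ∧ a ≤ 2 * n}

/-- `m` is an odd number, at most `2 n - 1`, and not of the form `p k` with `k > 1`. -/
def Ok (p n m : ℕ) : Prop := Odd m ∧ m ≤ 2 * n - 1 ∧ ¬ ∃ k : ℕ, 1 < k ∧ m = p * k

/-- The graph `G(p, n)` on `{2, 4, …, 2 n}`: distinct vertices `a`, `b` are adjacent iff `(a + b)/2`
and `|a - b|/2` are odd numbers at most `2 n - 1` that are not of the form `p k` with `k > 1`. -/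
def G (p n : ℕ) : SimpleGraph (V n) where
  Adj a b := a ≠ b ∧ Ok p n (((a : ℕ) + b) / 2) ∧ Ok p n (Nat.dist a b / 2)
  symm := ⟨fun a b h => ⟨h.1.symm, by rw [add_comm (b : ℕ)]; exact h.2.1,
    by rw [Nat.dist_comm]; exact h.2.2⟩⟩
  loopless := ⟨fun _ h => h.1 rfl⟩

/-- The edge-intersection of the graphs `G(p, n)`, `p ∈ P`. -/
def GP (P : Set ℕ) (n : ℕ) : SimpleGraph (V n) where
  Adj a b := a ≠ b ∧ ∀ p ∈ P, (G p n).Adj a b
  symm := ⟨fun _ _ h => ⟨h.1.symm, fun p hp => (h.2 p hp).symm⟩⟩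
  loopless := ⟨fun _ h => h.1 rfl⟩

/-! ### Lower bound -/

lemma ok3 {p n m : ℕ} (h : Ok p n m) : m % p ≠ 0 ∨ m = p := by
  by_contra hcon
  push Not at hcon
  obtain ⟨h1, h2, h3⟩ := h
  apply h3
  have h4 : p * (m / p) = m := Nat.mul_div_cancel' (Nat.dvd_of_mod_eq_zero hcon.1)
  refine ⟨m / p, ?_, h4.symm⟩
  by_contra h5
  rcases Nat.le_one_iff_eq_zero_or_eq_one.mp (not_lt.mp h5) with h6 | h6
  · rw [h6, mul_zero] at h4
    rw [← h4] at h1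
    exact absurd h1 (by decide)
  · rw [h6, mul_one] at h4
    exact hcon.2 h4.symm

/-- Facts about the half of an edge. -/
lemma edge {P : Set ℕ} {n : ℕ} {a b : V n} (h : (GP P n).Adj a b) (h3 : 3 ∈ P) (h5 : 5 ∈ P)
    (h7 : 7 ∈ P) : ∃ s d : ℕ, (a : ℕ) + b = 2 * s ∧ Nat.dist a b = 2 * d ∧ s % 2 = 1 ∧ d % 2 = 1 ∧
      (s % 3 ≠ 0 ∨ s = 3) ∧ (d % 3 ≠ 0 ∨ d = 3) ∧ (s % 5 ≠ 0 ∨ s = 5) ∧ (s % 7 ≠ 0 ∨ s = 7) := by
  obtain ⟨ha, ha2, ha3⟩ := a.2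
  obtain ⟨hb, hb2, hb3⟩ := b.2
  obtain ⟨x, hx⟩ := ha
  obtain ⟨y, hy⟩ := hb
  have e3 := (h.2 3 h3).2
  have e5 := (h.2 5 h5).2
  have e7 := (h.2 7 h7).2
  refine ⟨((a : ℕ) + b) / 2, Nat.dist a b / 2, ?_, ?_, ?_, ?_, ok3 e3.1,
    ok3 e3.2, ok3 e5.1, ok3 e7.1⟩
  · omega
  · unfold Nat.dist; omega
  · exact Nat.odd_iff.mp e3.1.1
  · exact Nat.odd_iff.mp e3.2.1

lemma end61 {X s d : ℕ} (h1 : s = 61 + X) (h2 : d = Nat.dist 61 X) (h3 : s % 3 ≠ 0 ∨ s = 3)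
    (h4 : d % 3 ≠ 0 ∨ d = 3) (h5 : s % 5 ≠ 0 ∨ s = 5) (h7 : s % 7 ≠ 0 ∨ s = 7) : X % 3 = 0 := by
  subst h1 h2
  rcases le_total X 61 with h | h
  · rw [Nat.dist_eq_sub_of_le_right h] at h4
    by_cases h8 : X = 58
    · subst h8; omega
    · omega
  · rw [Nat.dist_eq_sub_of_le h] at h4
    by_cases h8 : X = 64
    · subst h8; omega
    · omega

lemma end44 {X s d : ℕ} (h1 : s = 44 + X) (h2 : d = Nat.dist 44 X) (h3 : s % 3 ≠ 0 ∨ s = 3)
    (h4 : d % 3 ≠ 0 ∨ d = 3) (h5 : s % 5 ≠ 0 ∨ s = 5) (h7 : s % 7 ≠ 0 ∨ s = 7) : X % 3 = 0 := by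
  subst h1 h2
  rcases le_total X 44 with h | h
  · rw [Nat.dist_eq_sub_of_le_right h] at h4
    by_cases h8 : X = 41
    · subst h8; omega
    · omega
  · rw [Nat.dist_eq_sub_of_le h] at h4
    by_cases h8 : X = 47
    · subst h8; omega
    · omega

lemma lower {P : Set ℕ} {n : ℕ} (h3 : 3 ∈ P) (h5 : 5 ∈ P) (h7 : 7 ∈ P) (u v : V n)
    (hu : (u : ℕ) = 122) (hv : (v : ℕ) = 88) : 5 ≤ (GP P n).edist u v := by
  by_contra hcon
  push Not at hcon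
  obtain ⟨w, hw⟩ := SimpleGraph.exists_walk_of_edist_ne_top (ne_top_of_lt hcon)
  rw [← hw] at hcon
  have hlen : w.length < 5 := by exact_mod_cast hcon
  clear hw hcon
  cases w with
  | nil => omega
  | @cons _ x _ e1 w =>
    obtain ⟨s1, d1, f1⟩ := edge e1 h3 h5 h7
    have p1 := x.2
    cases w with
    | nil =>
      unfold Nat.dist at f1
      omega
    | @cons _ y _ e2 w =>
      obtain ⟨s2, d2, f2⟩ := edge e2 h3 h5 h7
      have p2 := y.2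
      cases w with
      | nil =>
        unfold Nat.dist at f1 f2
        omega
      | @cons _ z _ e3 w =>
        obtain ⟨s3, d3, f3⟩ := edge e3 h3 h5 h7
        have p3 := z.2
        cases w with
        | nil =>
          unfold Nat.dist at f1 f2 f3
          obtain ⟨a1, a2, a3, a4, a5, a6, a7, a8⟩ := f1
          obtain ⟨b1, b2, b3, b4, b5, b6, b7, b8⟩ := f2
          obtain ⟨c1, c2, c3, c4, c5, c6, c7, c8⟩ := f3
          obtain ⟨⟨X, hX⟩, pX, -⟩ := p1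
          obtain ⟨⟨Y, hY⟩, pY, -⟩ := p2
          have r1 : X % 3 = 0 :=
            end61 (s := s1) (d := d1) (by clear * - a1 hX hu; omega)
              (by clear * - a2 hX hu; unfold Nat.dist; omega) a5 a6 a7 a8
          have r2 : Y % 3 = 0 :=
            end44 (s := s3) (d := d3) (by clear * - c1 hY hv; omega)
              (by clear * - c2 hY hv; unfold Nat.dist; omega) c5 c6 c7 c8
          have h5 : s2 = X + Y := by clear * - b1 hX hY; omega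
          clear * - r1 r2 h5 b5 pX pY hX hY
          omega
        | @cons _ t _ e4 w =>
          obtain ⟨s4, d4, f4⟩ := edge e4 h3 h5 h7
          cases w with
          | nil =>
            unfold Nat.dist at f1 f2 f3 f4
            omega
          | cons e5 w =>
            simp only [SimpleGraph.Walk.length_cons] at hlen
            omega

/-! ### Upper bound -/

/-- The vertex `2 x`. -/
def mk {n x : ℕ} (h : 1 ≤ x ∧ x ≤ n) : V n := ⟨2 * x, even_two_mul x, by omega, by omega⟩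

/-- The condition for an edge in terms of the sifting range. -/
lemma adj_of {P : Set ℕ} {n I : ℕ} (hP : ∀ p ∈ P, p = 3 ∨ p ∈ SI I) {x y : ℕ}
    (hx : 1 ≤ x ∧ x ≤ n) (hy : 1 ≤ y ∧ y ≤ n) (hodd : (x + y) % 2 = 1)
    (h3 : (x + y) % 3 ≠ 0) (h3' : x % 3 ≠ y % 3 ∨ x + 3 = y) (hs : Sft I (x + y : ℤ))
    (hd : Sft I (y - x : ℤ)) : (GP P n).Adj (mk hx) (mk hy) := by
  have hne : mk hx ≠ mk hy := by
    intro h
    have h1 := congrArg Subtype.val h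
    simp only [mk] at h1
    omega
  refine ⟨hne, fun p hp => ⟨hne, ?_, ?_⟩⟩
  · have e1 : ((mk hx : V n) : ℕ) + ((mk hy : V n) : ℕ) = 2 * (x + y) := by
      simp only [mk]; ring
    rw [e1, Nat.mul_div_cancel_left _ (by norm_num)]
    refine ⟨Nat.odd_iff.mpr hodd, by omega, ?_⟩
    rintro ⟨k, hk, hk2⟩
    rcases hP p hp with rfl | h
    · omega
    · apply hs p h
      exact ⟨k, by exact_mod_cast hk2⟩
  · have e1 : Nat.dist ((mk hx : V n) : ℕ) ((mk hy : V n) : ℕ) = 2 * Nat.dist x y := by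
      simp only [mk]
      unfold Nat.dist
      omega
    rw [e1, Nat.mul_div_cancel_left _ (by norm_num)]
    refine ⟨Nat.odd_iff.mpr (by unfold Nat.dist; omega), by unfold Nat.dist; omega, ?_⟩
    rintro ⟨k, hk, hk2⟩
    rcases hP p hp with rfl | h
    · unfold Nat.dist at hk2
      omega
    · apply hd p h
      rcases le_total x y with hxy | hxy
      · refine ⟨k, ?_⟩
        rw [Nat.dist_eq_sub_of_le hxy] at hk2
        rw [← Nat.cast_sub hxy, hk2]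
        push_cast; ring
      · refine ⟨-k, ?_⟩
        rw [Nat.dist_eq_sub_of_le_right hxy] at hk2
        have : (y : ℤ) - x = -((x - y : ℕ) : ℤ) := by rw [Nat.cast_sub hxy]; ring
        rw [this, hk2]
        push_cast; ring

lemma sft_of_dvd {I : ℕ} {a b : ℤ} (h : a ∣ b) (hb : Sft I b) : Sft I a :=
  fun p hp hpa => hb p hp (hpa.trans h)

lemma sift_exists (I : ℕ) (hI : 10 ≤ I) (A1 B1 C1 A2 B2 C2 : ℤ) (h1 : Sft I A1) (h2 : Sft I A2) :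
    ∃ m : ℕ, 1 ≤ m ∧ m ≤ 2 ^ (584 * 2 ^ I) ∧ Sft I (A1 * (m : ℤ) ^ 2 + B1 * m + C1) ∧
      Sft I (A2 * (m : ℤ) ^ 2 + B2 * m + C2) := by
  classical
  have h := sift_quad I (by omega) A1 B1 C1 A2 B2 C2 h1 h2 (2 ^ (584 * 2 ^ I))
  have h0 := lt_of_lt_of_le (K_big I hI) h
  have h0' : 0 < ((Finset.Ioc 0 (2 ^ (584 * 2 ^ I))).filter (fun n : ℕ =>
      Sft I (A1 * (n : ℤ) ^ 2 + B1 * n + C1) ∧ Sft I (A2 * (n : ℤ) ^ 2 + B2 * n + C2))).card := by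
    exact_mod_cast h0
  obtain ⟨m, hm⟩ := Finset.card_pos.mp h0'
  rw [Finset.mem_filter, Finset.mem_Ioc] at hm
  exact ⟨m, hm.1.1, hm.1.2, hm.2.1, hm.2.2⟩

/-- A number in a residue class modulo 6 with two sifted differences of squares. -/
lemma exists_y (I : ℕ) (hI : 10 ≤ I) (x x' : ℤ) (r : ℕ) (hr : r < 6) :
    ∃ y : ℕ, 1 ≤ y ∧ y ≤ 6 * 2 ^ (584 * 2 ^ I) + 5 ∧ y % 6 = r ∧ Sft I ((y : ℤ) ^ 2 - x ^ 2) ∧
      Sft I ((y : ℤ) ^ 2 - x' ^ 2) := by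
  have h36 : Sft I 36 := sft_of_dvd ⟨36, by norm_num⟩ (Sft_1296 I)
  obtain ⟨m, hm1, hm2, h1, h2⟩ := sift_exists I hI 36 (12 * r) ((r : ℤ) ^ 2 - x ^ 2) 36 (12 * r)
    ((r : ℤ) ^ 2 - x' ^ 2) h36 h36
  refine ⟨6 * m + r, by omega, by omega, by omega, ?_, ?_⟩
  · convert h1 using 1
    push_cast; ring
  · convert h2 using 1
    push_cast; ring

lemma exists_y' (I : ℕ) (hI : 10 ≤ I) (x : ℤ) (r : ℕ) (hr : r < 6) :
    ∃ y : ℕ, 1 ≤ y ∧ y ≤ 6 * 2 ^ (584 * 2 ^ I) + 5 ∧ y % 6 = r ∧ Sft I ((y : ℤ) ^ 2 - x ^ 2) ∧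
      Sft I (2 * (y : ℤ) + 3) := by
  have h36 : Sft I 36 := sft_of_dvd ⟨36, by norm_num⟩ (Sft_1296 I)
  have h144 : Sft I 144 := sft_of_dvd ⟨9, by norm_num⟩ (Sft_1296 I)
  obtain ⟨m, hm1, hm2, h1, h2⟩ := sift_exists I hI 36 (12 * r) ((r : ℤ) ^ 2 - x ^ 2) 144
    (24 * (2 * r + 3)) ((2 * r + 3) ^ 2) h36 h144
  refine ⟨6 * m + r, by omega, by omega, by omega, ?_, ?_⟩
  · convert h1 using 1
    push_cast; ring
  · apply sft_of_dvd _ h2
    refine ⟨2 * (6 * (m : ℤ) + r) + 3, ?_⟩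
    push_cast; ring

/-- Opposite types. -/
def Opp (x y : ℕ) : Prop := (x + y) % 2 = 1 ∧ (x % 3 = 0 ↔ y % 3 ≠ 0)

/-- Equal types. -/
def Same (x y : ℕ) : Prop := (x + y) % 2 = 0 ∧ (x % 3 = 0 ↔ y % 3 = 0)

lemma adj_opp {P : Set ℕ} {n I : ℕ} (hP : ∀ p ∈ P, p = 3 ∨ p ∈ SI I) {x y : ℕ}
    (hx : 1 ≤ x ∧ x ≤ n) (hy : 1 ≤ y ∧ y ≤ n) (ho : Opp x y)
    (hs : Sft I ((y : ℤ) ^ 2 - (x : ℤ) ^ 2)) : (GP P n).Adj (mk hx) (mk hy) := by
  obtain ⟨h1, h2⟩ := ho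
  refine adj_of hP hx hy h1 (by omega) (by omega) ?_ ?_
  · exact sft_of_dvd ⟨(y : ℤ) - x, by ring⟩ hs
  · exact sft_of_dvd ⟨(y : ℤ) + x, by ring⟩ hs

/-- The residue class modulo 6 used for the neighbours. -/
def op (x : ℕ) : ℕ := if x % 6 = 0 then 1 else if x % 6 = 3 then 2 else if x % 2 = 1 then 0 else 3

lemma op_lt (x : ℕ) : op x < 6 := by
  unfold op; split_ifs <;> norm_num

lemma opp_op {x y : ℕ} (h : y % 6 = op x) : Opp x y := by
  unfold op at h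
  unfold Opp
  split_ifs at h <;> omega

lemma opp_same {x x' y : ℕ} (h : Opp x y) (h' : Same x x') : Opp x' y := by
  unfold Opp Same at *
  omega

lemma same_of_opp {x y z : ℕ} (h : Opp x y) (h' : Opp x z) : Same y z := by
  unfold Opp Same at *
  omega

lemma edist_same {P : Set ℕ} {n I : ℕ} (hP : ∀ p ∈ P, p = 3 ∨ p ∈ SI I) (hI : 10 ≤ I)
    (hn : 6 * 2 ^ (584 * 2 ^ I) + 8 ≤ n) {x x' : ℕ} (hx : 1 ≤ x ∧ x ≤ n) (hx' : 1 ≤ x' ∧ x' ≤ n)
    (h : Same x x') : (GP P n).edist (mk hx) (mk hx') ≤ 2 := by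
  obtain ⟨y, hy1, hy2, hy3, h1, h2⟩ := exists_y I hI x x' (op x) (op_lt x)
  have hy : 1 ≤ y ∧ y ≤ n := ⟨hy1, by omega⟩
  have ho := opp_op hy3
  have a1 := adj_opp hP hx hy ho h1
  have a2 := adj_opp hP hx' hy (opp_same ho h) h2
  exact SimpleGraph.edist_le (SimpleGraph.Walk.cons a1 (SimpleGraph.Walk.cons a2.symm .nil))

lemma exists_nbr {P : Set ℕ} {n I : ℕ} (hP : ∀ p ∈ P, p = 3 ∨ p ∈ SI I) (hI : 10 ≤ I)
    (hn : 6 * 2 ^ (584 * 2 ^ I) + 8 ≤ n) {x : ℕ} (hx : 1 ≤ x ∧ x ≤ n) :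
    ∃ (y : ℕ) (hy : 1 ≤ y ∧ y ≤ n), Opp x y ∧ (GP P n).edist (mk hx) (mk hy) ≤ 1 := by
  obtain ⟨y, hy1, hy2, hy3, h1, h2⟩ := exists_y I hI x x (op x) (op_lt x)
  have hy : 1 ≤ y ∧ y ≤ n := ⟨hy1, by omega⟩
  have a1 := adj_opp hP hx hy (opp_op hy3) h1
  exact ⟨y, hy, opp_op hy3, SimpleGraph.edist_le (SimpleGraph.Walk.cons a1 .nil)⟩

lemma edist_opp {P : Set ℕ} {n I : ℕ} (hP : ∀ p ∈ P, p = 3 ∨ p ∈ SI I) (hI : 10 ≤ I)
    (hn : 6 * 2 ^ (584 * 2 ^ I) + 8 ≤ n) {x x' : ℕ} (hx : 1 ≤ x ∧ x ≤ n) (hx' : 1 ≤ x' ∧ x' ≤ n)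
    (h : Opp x x') : (GP P n).edist (mk hx) (mk hx') ≤ 3 := by
  obtain ⟨y, hy, ho, h1⟩ := exists_nbr hP hI hn hx
  have h2 := edist_same hP hI hn hy hx' (same_of_opp ho h)
  exact SimpleGraph.edist_triangle.trans ((add_le_add h1 h2).trans (by norm_num))

/-- From a multiple of three one reaches in two steps a non-multiple of three of equal parity. -/
lemma exists_exc {P : Set ℕ} {n I : ℕ} (hP : ∀ p ∈ P, p = 3 ∨ p ∈ SI I) (hI : 10 ≤ I)
    (hn : 6 * 2 ^ (584 * 2 ^ I) + 8 ≤ n) {x : ℕ} (hx : 1 ≤ x ∧ x ≤ n) (h3 : x % 3 = 0) :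
    ∃ (v : ℕ) (hv : 1 ≤ v ∧ v ≤ n), (x + v) % 2 = 0 ∧ v % 3 ≠ 0 ∧
      (GP P n).edist (mk hx) (mk hv) ≤ 2 := by
  obtain ⟨y, hy1, hy2, hy3, h1, h2⟩ := exists_y' I hI x (op x) (op_lt x)
  have hy : 1 ≤ y ∧ y ≤ n := ⟨hy1, by omega⟩
  have hv : 1 ≤ y + 3 ∧ y + 3 ≤ n := ⟨by omega, by omega⟩
  have ho := opp_op hy3
  have a1 := adj_opp hP hx hy ho h1
  obtain ⟨o1, o2⟩ := ho
  have a2 : (GP P n).Adj (mk hy) (mk hv) := by
    refine adj_of hP hy hv (by omega) (by omega) (Or.inr rfl) ?_ ?_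
    · convert h2 using 1
      push_cast; ring
    · intro p hp hd
      have hd' : (p : ℤ) ∣ 3 := by
        convert hd using 1
        push_cast; ring
      have h5 := (mem_SI.1 hp).1
      have := Int.le_of_dvd (by norm_num) hd'
      omega
  refine ⟨y + 3, hv, by omega, by omega, ?_⟩
  exact SimpleGraph.edist_le (SimpleGraph.Walk.cons a1 (SimpleGraph.Walk.cons a2 .nil))

lemma edist_cross {P : Set ℕ} {n I : ℕ} (hP : ∀ p ∈ P, p = 3 ∨ p ∈ SI I) (hI : 10 ≤ I)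
    (hn : 6 * 2 ^ (584 * 2 ^ I) + 8 ≤ n) {x x' : ℕ} (hx : 1 ≤ x ∧ x ≤ n) (hx' : 1 ≤ x' ∧ x' ≤ n)
    (h2 : (x + x') % 2 = 0) (h3 : x % 3 = 0) (h3' : x' % 3 ≠ 0) :
    (GP P n).edist (mk hx) (mk hx') ≤ 4 := by
  obtain ⟨v, hv, v1, v2, h1⟩ := exists_exc hP hI hn hx h3
  have h2 := edist_same hP hI hn hv hx' ⟨by omega, by omega⟩
  exact SimpleGraph.edist_triangle.trans ((add_le_add h1 h2).trans (by norm_num))

lemma edist_all {P : Set ℕ} {n I : ℕ} (hP : ∀ p ∈ P, p = 3 ∨ p ∈ SI I) (hI : 10 ≤ I)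
    (hn : 6 * 2 ^ (584 * 2 ^ I) + 8 ≤ n) {x x' : ℕ} (hx : 1 ≤ x ∧ x ≤ n) (hx' : 1 ≤ x' ∧ x' ≤ n) :
    (GP P n).edist (mk hx) (mk hx') ≤ 5 := by
  by_cases h2 : (x + x') % 2 = 0
  · by_cases h3 : x % 3 = 0 ↔ x' % 3 = 0
    · exact (edist_same hP hI hn hx hx' ⟨h2, h3⟩).trans (by norm_num)
    · by_cases h4 : x % 3 = 0
      · exact (edist_cross hP hI hn hx hx' h2 h4 (by omega)).trans (by norm_num)
      · rw [SimpleGraph.edist_comm]
        exact (edist_cross hP hI hn hx' hx (by omega) (by omega) h4).trans (by norm_num)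
  · by_cases h3 : x % 3 = 0 ↔ x' % 3 = 0
    · by_cases h4 : x % 3 = 0
      · obtain ⟨v, hv, v1, v2, h1⟩ := exists_exc hP hI hn hx h4
        have h2 := edist_opp hP hI hn hv hx' ⟨by omega, by omega⟩
        exact SimpleGraph.edist_triangle.trans ((add_le_add h1 h2).trans (by norm_num))
      · obtain ⟨y, hy, ⟨o1, o2⟩, h1⟩ := exists_nbr hP hI hn hx
        have h2 := edist_cross hP hI hn hy hx' (by omega) (by omega) (by omega)
        exact SimpleGraph.edist_triangle.trans ((add_le_add h1 h2).trans (by norm_num))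
    · exact (edist_opp hP hI hn hx hx' ⟨by omega, by omega⟩).trans (by norm_num)

/-- The choice of the sifting range. -/
lemma exists_I : ∃ N : ℕ, 61 ≤ N ∧ ∀ n ≥ N, ∃ I : ℕ, 10 ≤ I ∧ 6 * 2 ^ (584 * 2 ^ I) + 8 ≤ n ∧
    ∀ p : ℕ, p ^ 1200 ≤ n → p ≤ 2 ^ 2 ^ I := by
  refine ⟨6 * 2 ^ (584 * 2 ^ 10) + 61, by omega, fun n hn => ?_⟩
  have hex : ∃ I : ℕ, n < 6 * 2 ^ (584 * 2 ^ I) + 8 := by
    refine ⟨n, ?_⟩
    have h1 : n < 2 ^ n := Nat.lt_two_pow_self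
    have h2 : 2 ^ n ≤ 2 ^ (584 * 2 ^ n) := Nat.pow_le_pow_right (by norm_num) (by
      have : n < 2 ^ n := Nat.lt_two_pow_self
      omega)
    omega
  classical
  set J := Nat.find hex with hJ
  have h1 := Nat.find_spec hex
  rw [← hJ] at h1
  have h11 : 11 ≤ J := by
    by_contra h
    have h2 : 2 ^ (584 * 2 ^ J) ≤ 2 ^ (584 * 2 ^ 10) := Nat.pow_le_pow_right (by norm_num)
      (Nat.mul_le_mul_left _ (Nat.pow_le_pow_right (by norm_num) (by omega)))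
    omega
  have h2 := Nat.find_min hex (m := J - 1) (by omega)
  refine ⟨J - 1, by omega, not_lt.mp h2, fun p hp => ?_⟩
  by_contra hcon
  push Not at hcon
  have e1 : 2 ^ J = 2 * 2 ^ (J - 1) := by
    rw [← pow_succ']
    congr 1
    omega
  have h3 : (2 ^ 2 ^ (J - 1)) ^ 1200 ≤ p ^ 1200 := Nat.pow_le_pow_left hcon.le _
  rw [← pow_mul] at h3
  rw [e1] at h1
  have h4 : 2 ^ (2 ^ (J - 1) * 1200) = 2 ^ (584 * (2 * 2 ^ (J - 1))) * 2 ^ (32 * 2 ^ (J - 1)) := by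
    rw [← pow_add]
    congr 1
    ring
  have h5 : 2 ^ 4 ≤ 2 ^ (32 * 2 ^ (J - 1)) := Nat.pow_le_pow_right (by norm_num) (by
    have : 1 ≤ 2 ^ (J - 1) := Nat.one_le_two_pow
    omega)
  have h6 : 1 ≤ 2 ^ (584 * (2 * 2 ^ (J - 1))) := Nat.one_le_two_pow
  rw [h4] at h3
  nlinarith

/-- For all large `n` and every set `P` of odd primes `p` with `p ^ 1200 ≤ n`, the intersection of
the graphs `G(p, n)`, `p ∈ P`, is connected with diameter at most `5`; the diameter is exactly `5`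
if `3, 5, 7 ∈ P`. -/
theorem result : ∃ N : ℕ, ∀ n ≥ N, ∀ P : Set ℕ, (∀ p ∈ P, p.Prime ∧ Odd p ∧ p ^ 1200 ≤ n) →
    (GP P n).Connected ∧ (GP P n).ediam ≤ 5 ∧
      (3 ∈ P → 5 ∈ P → 7 ∈ P → (GP P n).ediam = 5) := by
  obtain ⟨N, hN, h⟩ := exists_I
  refine ⟨N, fun n hn P hP => ?_⟩
  obtain ⟨I, hI, hnI, hp⟩ := h n hn
  have hP' : ∀ p ∈ P, p = 3 ∨ p ∈ SI I := by
    intro p hpP
    obtain ⟨h1, h2, h3⟩ := hP p hpP
    by_cases h4 : p = 3
    · exact Or.inl h4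
    · right
      rw [mem_SI]
      refine ⟨?_, hp p h3, h1⟩
      have h5 := h1.two_le
      rcases h2 with ⟨k, hk⟩
      omega
  have hall : ∀ u v : V n, (GP P n).edist u v ≤ 5 := by
    intro u v
    obtain ⟨⟨x, hx⟩, hu1, hu2⟩ := u.2
    obtain ⟨⟨y, hy⟩, hv1, hv2⟩ := v.2
    have h1 : 1 ≤ x ∧ x ≤ n := ⟨by omega, by omega⟩
    have h2 : 1 ≤ y ∧ y ≤ n := ⟨by omega, by omega⟩
    have e1 : u = mk h1 := Subtype.ext (by simp only [mk]; omega)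
    have e2 : v = mk h2 := Subtype.ext (by simp only [mk]; omega)
    rw [e1, e2]
    exact edist_all hP' hI hnI h1 h2
  have hle : (GP P n).ediam ≤ 5 := SimpleGraph.ediam_le_of_edist_le hall
  refine ⟨?_, hle, fun h3 h5 h7 => le_antisymm hle ?_⟩
  · have : Nonempty (V n) := ⟨⟨2, even_two, le_rfl, by omega⟩⟩
    rw [SimpleGraph.connected_iff]
    refine ⟨fun u v => ?_, this⟩
    apply SimpleGraph.reachable_of_edist_ne_top
    exact ne_top_of_le_ne_top (by decide) (hall u v)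
  · have h122 : 122 ≤ 2 * n := by omega
    have h88 : 88 ≤ 2 * n := by omega
    let u : V n := ⟨122, by decide, by norm_num, h122⟩
    let v : V n := ⟨88, by decide, by norm_num, h88⟩
    exact (lower h3 h5 h7 u v rfl rfl).trans SimpleGraph.edist_le_ediam

end Pool.Agent.Results.MP_443e5f_co.SieveDiameter
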